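import Pool.Agent.Q109.EX.BND
import Pool.Agent.Q109.EX.GBD
import Pool.Agent.Q277.EX.FDV
import Pool.Agent.Q153.EX.FIN
import Pool.Agent.Q176.EX.HHB
import Pool.Agent.Q164.EX.QCV
import Pool.Agent.Q182.EX.QIN
import Pool.Agent.Q194.EX.INV
import Pool.Agent.Q90.EX.CTS
import Pool.Agent.Q176.EX.NEM
import Pool.Agent.Q254.EX.CPT
import Pool.Agent.Q110.EX.SCH
import Pool.Agent.Q153.EX.REG
import Pool.Agent.Q76.EX.SCL

/-!
# Project EX: assembly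
-/

set_option autoImplicit false

namespace Pool.Agent.Q81.EX

open Set Filter Topology

theorem main : ∃ (ξ₀ : ℝ) (g : ℝ → ℝ), IsProfile ξ₀ g := by
  have hBND : S_BND := Pool.Agent.Q109.EX.bnd
  have hGBD : S_GBD := Pool.Agent.Q109.EX.gbd hBND
  have hFDV : S_FDV := Pool.Agent.Q277.EX.fdv hBND hGBD
  have hFIN : S_FIN := Pool.Agent.Q153.EX.fin hGBD hFDV
  have hHHB : S_HHB := Pool.Agent.Q176.EX.hhb hGBD hFDV
  have hQCV : S_QCV := Pool.Agent.Q164.EX.qcv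
  have hQIN : S_QIN := Pool.Agent.Q182.EX.qin hQCV
  have hINV : S_INV := Pool.Agent.Q194.EX.inv hFDV hFIN hHHB hQCV hQIN
  have hCTS : S_CTS := Pool.Agent.Q90.EX.cts hBND hGBD hHHB hQCV hINV
  have hSCH : S_SCH := Pool.Agent.Q110.EX.sch Pool.Agent.Q176.EX.nem Pool.Agent.Q254.EX.cpt
  have hREG : S_REG := Pool.Agent.Q153.EX.reg hBND hGBD hFDV hHHB hQCV hINV
  obtain ⟨p, hp, hfix⟩ := hSCH TT (fun p hp => (hINV p hp.1 hp.2.1).2) hCTS
  obtain ⟨lam, g0, g1, g2, g3, g4, hs⟩ := hREG p hp hfix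
  exact Pool.Agent.Q76.EX.scl lam g0 g1 g2 g3 g4 hs

end Pool.Agent.Q81.EX
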