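import Mathlib

/-!
# Project EX (helper81): existence of a symmetric zero-contact-angle extinction profile for `u_t = -(u u_xxx)_x - 1` (MP_db815f_an, full answer: yes)

Wanted: `ξ₀ > 0` and `g > 0` on `[0, ξ₀)` with `-(g g''')' - (1/2) ξ g' + g - 1 = 0`, `g'(0) = g'''(0) = 0` and `g, g', g g''' → 0` at `ξ₀`.  Put `g(ξ) = G(ξ/ξ₀)`, `λ = ξ₀⁴`, `p = -G'`, `F = G G''' / λ`.  Then
`F' = G - 1 + (1/2) s p`, `F(0) = F(1) = 0`, that is `F(s) = (3/2) ∫_0^s G - s - (1/2) s G(s)` and `∫_0^1 G = 2/3`, i.e. `∫ r p = 2/3`; and `-p'' = λ h`, `h = F / G`, `p(0) = p(1) = 0`.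

Fixed point problem: `p ↦ (2/3) q / ∫ r q`, where `q` is the solution of `-q'' = h`, `q(0) = q(1) = 0`, `h = F / G`, `G = ∫_s^1 p`.  KEY: if `p` is concave, then `F` is concave (formally `F'' = (1/2)(s p' - p)`), hence
`F ≥ 0`, hence `h ≥ 0`, hence `q` is concave.  The only singular point is `p = 2 r` (`G = 1 - s²`, `F = 0`), and `D(p) = 1/2 - ∫ r² p = ∫ F` measures the distance to it: `D(new p) ≥ c₀ √(D(p))`, so that the set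
`D(p) ≥ c₀²` is invariant.  Schauder's theorem (`Pool.Agent.W143.DQ.schauder`, `Pool/Agent/W143/DQ/Schauder.lean`) gives a fixed point.

All functions are functions on the real line, only their values on `[0, 1]` matter.
-/

set_option autoImplicit false
set_option linter.unusedVariables false

namespace Pool.Agent.Q81.EX

open Set MeasureTheory Filter Topology

/-- `G(s) = ∫_s^1 p` -/
noncomputable def GG (p : ℝ → ℝ) (s : ℝ) : ℝ := ∫ r in s..1, p r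

/-- `F(s) = (3/2) ∫_0^s G - s - (1/2) s G(s)` -/
noncomputable def FF (p : ℝ → ℝ) (s : ℝ) : ℝ :=
  3 / 2 * (∫ r in (0 : ℝ)..s, GG p r) - s - 1 / 2 * s * GG p s

/-- `h = F / G` -/
noncomputable def hh (p : ℝ → ℝ) (s : ℝ) : ℝ := FF p s / GG p s

/-- the solution of `-q'' = h`, `q(0) = q(1) = 0` -/
noncomputable def qq (h : ℝ → ℝ) (s : ℝ) : ℝ :=
  (1 - s) * (∫ r in (0 : ℝ)..s, r * h r) + s * ∫ r in s..1, (1 - r) * h r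

/-- the first moment -/
noncomputable def I1 (p : ℝ → ℝ) : ℝ := ∫ r in (0 : ℝ)..1, r * p r

/-- the second moment -/
noncomputable def I2 (p : ℝ → ℝ) : ℝ := ∫ r in (0 : ℝ)..1, r ^ 2 * p r

/-- the distance to the singular point -/
noncomputable def DD (p : ℝ → ℝ) : ℝ := 1 / 2 - I2 p

/-- the map -/
noncomputable def TT (p : ℝ → ℝ) (s : ℝ) : ℝ := 2 / 3 / I1 (qq (hh p)) * qq (hh p) s

/-- the constants -/
noncomputable def dl : ℝ := (1 / 200000) ^ 2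
noncomputable def Cc : ℝ := 23040 / dl

/-- the admissible functions -/
structure Adm (p : ℝ → ℝ) : Prop where
  cont : ContinuousOn p (Icc 0 1)
  conc : ConcaveOn ℝ (Icc 0 1) p
  zero : p 0 = 0
  one : p 1 = 0
  mom : I1 p = 2 / 3

/-- the compact convex set -/
def KK : Set (ℝ → ℝ) :=
  {p | Adm p ∧ dl ≤ DD p ∧ ∀ s ∈ Icc (0 : ℝ) 1, p s ≤ Cc * (s * Real.sqrt (1 - s))}

/-- right hand sides -/
structure Hb (h : ℝ → ℝ) : Prop where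
  cont : ContinuousOn h (Ico 0 1)
  nonneg : ∀ s ∈ Ico (0 : ℝ) 1, 0 ≤ h s
  le : ∀ s ∈ Ico (0 : ℝ) 1, h s ≤ 12 / (1 - s)

/-- JOB BND (only Mathlib).
Proof.  `m = p(1/2)`.  Concavity and `p 0 = p 1 = 0`: for `s ≤ 1/2`, `s = (1 - 2 s) * 0 + 2 s * (1/2)`, so `p s ≥ 2 s m`; for `1/2 ≤ s`, `p s ≥ 2 (1 - s) m`; and `m ≥ (p 0 + p 1)/2 = 0`.  So `p s ≥ 2 m s (1 - s) ≥ 0`.
Upper bound `p s ≤ 2 m`: for `s ≤ 1/2` write `1/2 = l s + (1 - l) * 1` with `l = 1/(2 (1 - s)) ≥ 1/2`, so `m ≥ l p(s) ≥ p(s)/2`; for `s ≥ 1/2` write `1/2 = l s + (1 - l) * 0` with `l = 1/(2 s)`.  Then `2/3 = ∫ r p ≤ ∫ r 2 m = m` and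
`2/3 = ∫ r p ≥ ∫ 2 m r² (1 - r) = m/6`, so `2/3 ≤ m ≤ 4`; `p ≤ 2 m ≤ 8` and `p s ≥ 2 m s (1 - s) ≥ (4/3) s (1 - s)`. -/
def S_BND : Prop := ∀ p : ℝ → ℝ, Adm p → ∀ s ∈ Icc (0 : ℝ) 1,
  0 ≤ p s ∧ p s ≤ 8 ∧ 4 / 3 * (s * (1 - s)) ≤ p s

/-- JOB GBD (uses `S_BND`).
Proof.  Lower bound: for `s ≥ 1/2`, `GG p s ≥ ∫_s^1 (4/3) r (1 - r) ≥ (2/3) ∫_s^1 (1 - r) = (1 - s)²/3`; for `s ≤ 1/2` (as `p ≥ 0`) `GG p s ≥ GG p (1/2) ≥ 1/12 ≥ (1 - s)²/12`.  Upper bound: `∫_s^1 8 ≤ 8`.  Derivative: fundamental theorem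
(`p` is continuous on `[0, 1]`; e.g. write `GG p s = GG p 0 - ∫_0^s p` for `s ∈ [0,1]`).  `∫_0^1 GG p = [r GG p r]_0^1 + ∫ r p r = I1 p = 2/3` and `∫_0^1 r GG p r = [r²/2 GG p r]_0^1 + ∫ r²/2 p r = I2 p / 2` (integration by parts; or: the functions
`∫_0^s GG p - s GG p s - ∫_0^s r p r` etc. have derivative `0`). -/
def S_GBD : Prop := ∀ p : ℝ → ℝ, Adm p →
  (∀ s ∈ Icc (0 : ℝ) 1, (1 - s) ^ 2 / 12 ≤ GG p s ∧ GG p s ≤ 8) ∧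
  (∀ s ∈ Icc (0 : ℝ) 1, HasDerivWithinAt (GG p) (-p s) (Icc 0 1) s) ∧ GG p 1 = 0 ∧
  ∫ r in (0 : ℝ)..1, GG p r = 2 / 3 ∧ ∫ r in (0 : ℝ)..1, r * GG p r = I2 p / 2

/-- JOB FDV (uses `S_BND`, `S_GBD`).
Proof.  `GG p` is continuous on `[0, 1]` (it has a derivative within), so `FF p` has the derivative `(3/2) G - 1 - (1/2) G + (1/2) s p = G - 1 + (1/2) s p` within `[0, 1]`.  `FF p 0 = 0`; `FF p 1 = (3/2)(2/3) - 1 - 0 = 0`.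
The derivative is antitone: for `0 ≤ s ≤ t ≤ 1`, `G(s) - G(t) = ∫_s^t p ≥ (t - s)(p s + p t)/2` (a concave function is above its chord) and
`(t - s)(p s + p t)/2 - (t p t - s p s)/2 = (t p s - s p t)/2 ≥ 0` (concavity and `p 0 = 0`: `p s ≥ (s/t) p t`).  So `FF p` is concave on `[0, 1]` (`AntitoneOn.concaveOn_of_deriv`), so `≥ 0`.  The derivative is `≥ -1` (`G ≥ 0`, `p ≥ 0`, `s ≥ 0`), so
`FF p s = FF p s - FF p 1 ≤ 1 - s` (the function `FF p s + s` is monotone). -/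
def S_FDV : Prop := ∀ p : ℝ → ℝ, Adm p →
  (∀ s ∈ Icc (0 : ℝ) 1, HasDerivWithinAt (FF p) (GG p s - 1 + 1 / 2 * s * p s) (Icc 0 1) s) ∧
  FF p 0 = 0 ∧ FF p 1 = 0 ∧ ConcaveOn ℝ (Icc 0 1) (FF p) ∧
  ∀ s ∈ Icc (0 : ℝ) 1, 0 ≤ FF p s ∧ FF p s ≤ 1 - s

/-- JOB FIN (uses `S_GBD`, `S_FDV`).
Proof.  (1) `∫_0^1 FF p = DD p`: `∫_0^1 (∫_0^s G) ds = ∫_0^1 (1 - r) G(r) dr = 2/3 - I2 p / 2` (integration by parts), so `∫ FF p = (3/2)(2/3 - I2 p/2) - 1/2 - (1/2)(I2 p/2) = 1/2 - I2 p`.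
(2) For `x ∈ (0, 1)`, `s ∈ [0, 1]`: concavity and `F 0 = F 1 = 0` give `F s ≥ F x * (s / x)` for `s ≤ x` and `F s ≥ F x * ((1 - s)/(1 - x))` for `s ≥ x`.  Integrated over `s`: `DD p ≥ F x / 2`, so `F x ≤ 2 DD p` (also for `x = 0, 1`, with `DD p = ∫ F ≥ 0`).
Both bounds are `≥ F x * (s (1 - s))`; integrated over `x`: `F s ≥ DD p * (s (1 - s))`. -/
def S_FIN : Prop := ∀ p : ℝ → ℝ, Adm p → 0 ≤ DD p ∧ ∀ s ∈ Icc (0 : ℝ) 1,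
  DD p * (s * (1 - s)) ≤ FF p s ∧ FF p s ≤ 2 * DD p

/-- JOB HHB (uses `S_GBD`, `S_FDV`).
Proof.  On `[0, 1)` `GG p ≥ (1 - s)²/12 > 0`, so `h` is continuous, `≥ 0`, `≥ F/8`, `≤ 12 F/(1 - s)² ≤ 12 (1 - s)/(1 - s)²`. -/
def S_HHB : Prop := ∀ p : ℝ → ℝ, Adm p → Hb (hh p) ∧ ∀ s ∈ Ico (0 : ℝ) 1,
  1 / 8 * FF p s ≤ hh p s ∧ hh p s ≤ 12 * FF p s / (1 - s) ^ 2

/-- JOB QCV (only Mathlib).
Proof.  `A(s) = ∫_0^s r h`, `B(s) = ∫_s^1 (1 - r) h`; `(1 - r) h` is bounded by `12` on `[0, 1)` and continuous on `[0, 1)`, so integrable on `[0, 1]`; `r h` is continuous on `[0, 1)`.  On `[0, 1)`: `A' = s h`, `B' = -(1 - s) h` (within `[0, 1)`), so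
`q' = -A + (1 - s) s h + B - s (1 - s) h = B - A`.  Bound: `0 ≤ A(s) ≤ s ∫_0^s 12/(1 - r) dr ≤ s ∫_0^s 12 (1 - r)^(-3/2) dr = 24 s ((1 - s)^(-1/2) - 1)`, `0 ≤ B(s) ≤ 12 (1 - s)`, so `q ≤ 24 s √(1 - s) - 24 s (1 - s) + 12 s (1 - s) ≤ 24 s √(1 - s)`.
In particular `q` is continuous at `1` (`q 1 = 0`), and continuous on `[0, 1)` as it has a derivative.  `B - A` is antitone on `[0, 1)` (`h ≥ 0`), so `q` is concave (`AntitoneOn.concaveOn_of_deriv` on `Icc 0 1`, interior `Ioo 0 1`). -/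
def S_QCV : Prop := ∀ h : ℝ → ℝ, Hb h →
  ContinuousOn (qq h) (Icc 0 1) ∧ ConcaveOn ℝ (Icc 0 1) (qq h) ∧ qq h 0 = 0 ∧ qq h 1 = 0 ∧
  (∀ s ∈ Icc (0 : ℝ) 1, 0 ≤ qq h s ∧ qq h s ≤ 24 * (s * Real.sqrt (1 - s))) ∧
  (∀ s ∈ Ico (0 : ℝ) 1, HasDerivWithinAt (qq h)
    ((∫ r in s..1, (1 - r) * h r) - ∫ r in (0 : ℝ)..s, r * h r) (Ico 0 1) s) ∧
  ∀ s ∈ Ico (0 : ℝ) 1, HasDerivWithinAt
    (fun s => (∫ r in s..1, (1 - r) * h r) - ∫ r in (0 : ℝ)..s, r * h r) (-h s) (Ico 0 1) s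

/-- JOB QIN (uses `S_QCV`).
Proof.  `κ(r) = (r - r³)/6` has `κ'' = -r`, `κ(0) = κ(1) = 0`.  With `q = qq h`, `q' = B - A` as in `S_QCV`, `q'' = -h` on `[0, 1)`: `(κ' q - κ q')' = -s q + κ h`, so `∫_0^b (κ h - s q) = κ'(b) q(b) - κ(b) q'(b)` for `b < 1` (`q(0) = 0`, `κ(0) = 0`), and this tends
to `0` for `b → 1`: `q(b) → q(1) = 0`, `0 ≤ κ(b) ≤ (1 - b)/3`, `|q'(b)| ≤ A(b) + B(b) ≤ 24 (1 - b)^(-1/2) + 12`.  `κ h` is bounded by `4` and integrable on `[0, 1]`, so `∫_0^1 κ h = ∫_0^1 s q`.  In the same way with `κ(r) = (r - r⁴)/12`, `κ'' = -r²`. -/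
def S_QIN : Prop := ∀ h : ℝ → ℝ, Hb h →
  I1 (qq h) = ∫ r in (0 : ℝ)..1, h r * ((r - r ^ 3) / 6) ∧
  I2 (qq h) = ∫ r in (0 : ℝ)..1, h r * ((r - r ^ 4) / 12)

/-- JOB INV (uses `S_FDV`, `S_FIN`, `S_HHB`, `S_QCV`, `S_QIN`).
Proof.  `D = DD p ≥ dl > 0`, `h = hh p ≥ F/8 ≥ (D/8) r (1 - r)`, `q = qq h`.  (1) `I1 q = ∫ h (r - r³)/6 ≥ (D/48) ∫ r² (1 - r)² (1 + r) ≥ (D/48)(1/30) = D/1440`.  (2) `I1 q ≤ 8 √(2 D)`: `h (r - r³)/6 ≤ 12 F/(1 - r)² * r (1 - r)(1 + r)/6 ≤ 4 F/(1 - r)` and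
`F ≤ √(2 D) √(1 - r)` (as `F ≤ 2 D` and `F ≤ 1 - r`), `∫_0^1 4 √(2 D) (1 - r)^(-1/2) = 8 √(2 D)`.  (3) `(1/2) I1 q - (2/3) I2 q = ∫ h ((r - r³)/12 - (r - r⁴)/18) = ∫ h r (1 - r)² (1 + 2 r)/36 ≥ (D/288) ∫ r² (1 - r)³ = D/17280`.
(4) `TT p = (2/3) q / I1 q` is `Adm` (`S_QCV`; `I1 (TT p) = 2/3`), `DD (TT p) = 1/2 - (2/3) I2 q / I1 q = ((1/2) I1 q - (2/3) I2 q)/I1 q ≥ (D/17280)/(8 √(2 D)) ≥ √D/200000 ≥ √dl/200000 = dl`.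
(5) `TT p ≤ (2/3) 24 s √(1 - s) * 1440/D ≤ (23040/dl) s √(1 - s)`. -/
def S_INV : Prop := ∀ p : ℝ → ℝ, Adm p → dl ≤ DD p →
  DD p / 1440 ≤ I1 (qq (hh p)) ∧ TT p ∈ KK

/-- JOB CTS (uses `S_BND`, `S_GBD`, `S_HHB`, `S_QCV`, `S_INV`).
Proof.  Let `ε n = sup |P n - p|` on `[0, 1]`, `→ 0`.  `|GG (P n) - GG p| ≤ ε n`, `|FF (P n) - FF p| ≤ 2 ε n`, so `hh (P n) s → hh p s` for every `s ∈ [0, 1)` (`GG p s > 0`).  `e n = ∫_0^1 r (1 - r) |hh (P n) r - hh p r| dr → 0` (dominated convergence, the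
integrand is at most `24`; `intervalIntegral.tendsto_integral_filter_of_dominated_convergence`).  For `s ∈ [0, 1]`: `|qq (hh (P n)) s - qq (hh p) s| ≤ (1 - s) ∫_0^s r |..| + s ∫_s^1 (1 - r) |..| ≤ e n`, as `1 - s ≤ 1 - r` for `r ≤ s` and `s ≤ r` for `r ≥ s` (for `s = 1` both sides vanish:
`qq h 1 = 0`).  So `qq (hh (P n)) → qq (hh p)` uniformly on `[0, 1]`, `I1 (qq (hh (P n))) → I1 (qq (hh p)) ≥ DD p/1440 > 0`, and the quotients converge uniformly (`qq ≤ 24`). -/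
def S_CTS : Prop := ∀ (p : ℝ → ℝ) (P : ℕ → ℝ → ℝ), p ∈ KK → (∀ n, P n ∈ KK) →
  TendstoUniformlyOn P p atTop (Icc 0 1) → TendstoUniformlyOn (fun n => TT (P n)) (TT p) atTop (Icc 0 1)

/-- JOB NEM (only Mathlib).  Proof.  `p r = 8 r (1 - r)`: `∫ r p = 8/12`, `∫ r² p = 8/20`, `DD p = 1/10 ≥ dl`, `8 s (1 - s) ≤ 8 s √(1 - s) ≤ Cc s √(1 - s)`. -/
def S_NEM : Prop := ∃ p : ℝ → ℝ, p ∈ KK

/-- the continuous functions on `[0, 1]` which belong to `KK` -/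
def KC : Set C(Icc (0 : ℝ) 1, ℝ) := {f | IccExtend (zero_le_one' ℝ) f ∈ KK}

/-- JOB CPT (only Mathlib; Arzela-Ascoli, `BoundedContinuousFunction.arzela_ascoli` or `ContinuousMap` version).
Proof.  Convex: the conditions of `KK` are concave inequalities and linear equations (`I1`, `I2` are linear on functions which are continuous on `[0, 1]`).  Closed: all conditions are closed under uniform convergence on `[0, 1]`.  `0 ≤ p` (concave, `p 0 = p 1 = 0`) and `p ≤ Cc`: bounded.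
Equicontinuous: for `0 ≤ s ≤ t ≤ 1`, `d = t - s`: `p t ≤ p s + p d` (concave, `p 0 = 0`), so `p t - p s ≤ p d ≤ Cc d ≤ Cc √d`; and `p t + p (1 - d) ≥ p s + p 1` (concave; `t + (1 - d) = s + 1`, both in `[s, 1]`), so `p s - p t ≤ p (1 - d) ≤ Cc √d`.
So `|p t - p s| ≤ Cc √|t - s|`. -/
def S_CPT : Prop := Convex ℝ KC ∧ IsCompact KC

/-- JOB SCH (uses `S_NEM`, `S_CPT`, the theorem `Pool.Agent.W143.DQ.schauder` of `Pool/Agent/W143/DQ/Schauder.lean`).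
Proof.  `T̂ f` = the continuous function `x ↦ T (IccExtend f) x` on `Icc 0 1` if this is continuous, and `0` otherwise.  For `f ∈ KC` it is continuous (`T (..) ∈ KK`), and `T̂ f ∈ KC` (its extension and `T (..)` agree on `[0, 1]`, and the conditions of `KK` depend only on the values on `[0, 1]`).
`KC` is nonempty (`S_NEM`, restrict), compact and convex.  `T̂` is continuous on `KC`: sequences (a sequence in `𝓝[KC] f` is eventually in `KC`; replace its first terms by `f`).  Schauder gives `f ∈ KC` with `T̂ f = f`; `p = IccExtend f`. -/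
def S_SCH : Prop := ∀ T : (ℝ → ℝ) → (ℝ → ℝ), (∀ p ∈ KK, T p ∈ KK) →
  (∀ (p : ℝ → ℝ) (P : ℕ → ℝ → ℝ), p ∈ KK → (∀ n, P n ∈ KK) → TendstoUniformlyOn P p atTop (Icc 0 1) →
    TendstoUniformlyOn (fun n => T (P n)) (T p) atTop (Icc 0 1)) →
  ∃ p ∈ KK, EqOn (T p) p (Icc 0 1)

/-- a solution of the rescaled problem with its derivatives -/
structure Sol (lam : ℝ) (g0 g1 g2 g3 g4 : ℝ → ℝ) : Prop where
  lam_pos : 0 < lam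
  d0 : ∀ s ∈ Ico (0 : ℝ) 1, HasDerivWithinAt g0 (g1 s) (Ico 0 1) s
  d1 : ∀ s ∈ Ico (0 : ℝ) 1, HasDerivWithinAt g1 (g2 s) (Ico 0 1) s
  d2 : ∀ s ∈ Ico (0 : ℝ) 1, HasDerivWithinAt g2 (g3 s) (Ico 0 1) s
  d3 : ∀ s ∈ Ico (0 : ℝ) 1, HasDerivWithinAt g3 (g4 s) (Ico 0 1) s
  c4 : ContinuousOn g4 (Ico 0 1)
  pos : ∀ s ∈ Ico (0 : ℝ) 1, 0 < g0 s
  ode : ∀ s ∈ Ico (0 : ℝ) 1, g1 s * g3 s + g0 s * g4 s = lam * (g0 s - 1 - 1 / 2 * s * g1 s)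
  z1 : g1 0 = 0
  z3 : g3 0 = 0
  e0 : Tendsto g0 (𝓝[<] 1) (𝓝 0)
  e1 : Tendsto g1 (𝓝[<] 1) (𝓝 0)
  e3 : Tendsto (fun s => g0 s * g3 s) (𝓝[<] 1) (𝓝 0)

/-- JOB REG (uses `S_BND`, `S_GBD`, `S_FDV`, `S_HHB`, `S_QCV`, `S_INV`).
Proof.  `lam = (2/3)/I1 (qq (hh p)) > 0` (`S_INV`), `g0 = GG p`, `g1 = -p`, `g2 = -lam (B - A)` with `B - A` as in `S_QCV`, `g3 = lam * hh p`, `g4 = lam * (((GG p s - 1 + (1/2) s p s) * GG p s + FF p s * p s) / GG p s ^ 2)`.  On `[0, 1)`: `p = lam qq (hh p)`, so `p` has the derivative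
`lam (B - A)` (congruence within `Ico 0 1`), `g2' = lam h = g3`, `h' = (F' G - F G')/G²`.  `g0 g3 = lam F` on `[0, 1)`, `(g0 g3)' = lam F' = lam (G - 1 + (1/2) s p)`; directly: `g1 g3 + g0 g4 = lam (-p F/G + F' + F p/G) = lam F'`.
`g1 0 = -p 0 = 0`, `g3 0 = lam F 0/G 0 = 0`; at `1`: `GG p`, `p`, `FF p` are continuous on `[0, 1]` and vanish at `1`. -/
def S_REG : Prop := ∀ p ∈ KK, EqOn (TT p) p (Icc 0 1) → ∃ (lam : ℝ) (g0 g1 g2 g3 g4 : ℝ → ℝ), Sol lam g0 g1 g2 g3 g4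

/-- an admissible profile: `g ∈ C⁴([0, ξ₀))` (one-sided derivatives at `0`), `g > 0`, the equation, symmetry at `0`, zero height, zero contact angle and zero flux at `ξ₀` -/
structure IsProfile (ξ₀ : ℝ) (g : ℝ → ℝ) : Prop where
  pos_end : 0 < ξ₀
  smooth : ContDiffOn ℝ 4 g (Ico 0 ξ₀)
  pos : ∀ ξ ∈ Ico 0 ξ₀, 0 < g ξ
  ode : ∀ ξ ∈ Ico 0 ξ₀,
    -derivWithin (fun y => g y * iteratedDerivWithin 3 g (Ico 0 ξ₀) y) (Ico 0 ξ₀) ξ -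
      1 / 2 * ξ * derivWithin g (Ico 0 ξ₀) ξ + g ξ - 1 = 0
  sym_one : derivWithin g (Ico 0 ξ₀) 0 = 0
  sym_three : iteratedDerivWithin 3 g (Ico 0 ξ₀) 0 = 0
  height : Tendsto g (𝓝[<] ξ₀) (𝓝 0)
  angle : Tendsto (derivWithin g (Ico 0 ξ₀)) (𝓝[<] ξ₀) (𝓝 0)
  flux : Tendsto (fun y => g y * iteratedDerivWithin 3 g (Ico 0 ξ₀) y) (𝓝[<] ξ₀) (𝓝 0)

/-- JOB SCL (only Mathlib).
Proof.  `a = lam^(1/4) > 0`, `g ξ = g0 (ξ / a)`.  On `Ico 0 a`: `k_j ξ = g_j (ξ/a) / a^j` has the derivative `k_(j+1) ξ` within `Ico 0 a` (`ξ ↦ ξ/a` maps `Ico 0 a` to `Ico 0 1`), `k_4` is continuous.  So `ContDiffOn ℝ 4 g (Ico 0 a)` and `iteratedDerivWithin j g (Ico 0 a) = k_j` on `Ico 0 a`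
(`uniqueDiffOn_Ico`, induction with `iteratedDerivWithin_succ` and `contDiffOn_succ_iff_derivWithin`, or `contDiffOn_of_differentiableOn_deriv`).  The equation: `(g g''')' = (k_0 k_3)' = (g1 g3 + g0 g4)(ξ/a)/a⁴ = (g0 - 1 - (1/2)(ξ/a) g1)(ξ/a)`, and `(1/2) ξ g' = (1/2) ξ g1(ξ/a)/a`.
The limits at `a`: composition with `ξ ↦ ξ/a`, and `derivWithin g = k_1`, `iteratedDerivWithin 3 g = k_3` on `Ico 0 a`, which is in `𝓝[<] a`. -/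
def S_SCL : Prop := ∀ (lam : ℝ) (g0 g1 g2 g3 g4 : ℝ → ℝ), Sol lam g0 g1 g2 g3 g4 → ∃ (ξ₀ : ℝ) (g : ℝ → ℝ), IsProfile ξ₀ g

end Pool.Agent.Q81.EX
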